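import Pool.Agent.CHR.Words

/-!
# Words of two-hub rims with the blocks `C D^k` and `C D^a1 ... C D^ar C D^k`

For `MP_5e2eaf_co`. `C = false`, `D = true`.
-/

namespace H80R

open CHR

variable {A : Type} [CommRing A]

/-- `C D^a1 C D^a2 ... C D^ar` -/
def hd (as : List ℕ) : List Bool := (as.map (fun a => false :: List.replicate a true)).flatten

/-- the block `C D^k` (`false`) or `C D^a1 ... C D^ar C D^k` (`true`) -/
def blkl (as : List ℕ) (k : ℕ) (b : Bool) : List Bool :=
  (if b then hd as else []) ++ (false :: List.replicate k true)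

/-- the word with the blocks `bs` -/
def wordl (as : List ℕ) (k : ℕ) (bs : List Bool) : List Bool := (bs.map (blkl as k)).flatten

/-- the signed matrix of `C D^a1 ... C D^ar C` -/
def Hm (q : A) : List ℕ → Matrix (Fin 3) (Fin 3) A
  | [] => Bm false q
  | a :: as => (-1 : A) ^ (a + 1) • (Bm false q * Bm true q ^ a * Hm q as)

/-- the signed matrix of the head of the block -/
def Xl (as : List ℕ) (b : Bool) (q : A) : Matrix (Fin 3) (Fin 3) A :=
  if b then Hm q as else Bm false q

/-- the main part of the partition function -/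
def Phl (as : List ℕ) (bs : List Bool) (q x : A) : A :=
  ((bs.map (fun b => Xl as b q * (V2 q + x • V1 q))).prod).trace

theorem length_blkl (as : List ℕ) (k : ℕ) (b : Bool) :
    (blkl as k b).length = (if b then (hd as).length else 0) + (k + 1) := by
  cases b
  · simp [blkl]
  · simp [blkl]

private lemma pow_sq_one (k : ℕ) : ((-1 : A) ^ k) * (-1) ^ k = 1 := by
  rw [← mul_pow]; simp

theorem hd_prod (q : A) (as : List ℕ) :
    ((-1 : A) ^ (hd as).length) • (((hd as).map (fun b => Bm b q)).prod * Bm false q) =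
      Hm q as := by
  induction as with
  | nil => simp [hd, Hm]
  | cons a as ih =>
    have h1 : hd (a :: as) = (false :: List.replicate a true) ++ hd as := by simp [hd]
    rw [h1, List.map_append, List.prod_append, Hm, ← ih, List.length_append, List.length_cons,
      List.length_replicate, List.map_cons, List.prod_cons, List.map_replicate,
      List.prod_replicate, pow_add, mul_smul, mul_smul_comm, mul_assoc, mul_assoc]

theorem blkl_prod (q : A) (as : List ℕ) (k : ℕ) (b : Bool) :
    ((q - 1) * (-1) ^ (blkl as (k + 1) b).length) •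
      (((blkl as (k + 1) b).map (fun b => Bm b q)).prod) =
      Xl as b q * (V2 q + (2 - q) ^ k • V1 q) := by
  have h3 := pow_sq_one (A := A) k
  have h4 : ((-1 : A) ^ k) * (q - 2) ^ k = (2 - q) ^ k := by
    rw [← mul_pow]; congr 1; ring
  have h5 : ((q - 1) * (-1 : A) ^ k) • (Bm true q ^ (k + 1)) = V2 q + (2 - q) ^ k • V1 q := by
    rw [mul_comm (q - 1), mul_smul, Bm_true_pow, smul_sub, smul_smul,
      smul_smul, h4, pow_succ, ← mul_assoc, h3, one_mul, neg_one_smul, sub_neg_eq_add, add_comm]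
  have h6 : (-1 : A) ^ (k + 1 + 1) = (-1) ^ k := by
    rw [pow_succ, pow_succ]; ring
  rw [length_blkl]
  cases b
  · have h2 : ((blkl as (k + 1) false).map (fun b => Bm b q)).prod =
        Bm false q * Bm true q ^ (k + 1) := by
      simp [blkl, List.map_replicate, List.prod_replicate]
    rw [h2, ← mul_smul_comm]
    simp only [Bool.false_eq_true, if_false, zero_add, h6, h5, Xl]
  · have h2 : ((blkl as (k + 1) true).map (fun b => Bm b q)).prod =
        (((hd as).map (fun b => Bm b q)).prod * Bm false q) * Bm true q ^ (k + 1) := by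
      simp only [blkl, if_true, List.map_append, List.prod_append, List.map_cons, List.prod_cons,
        List.map_replicate, List.prod_replicate, mul_assoc]
    have h7 : (q - 1) * (-1 : A) ^ ((hd as).length + (k + 1 + 1)) =
        (-1) ^ (hd as).length * ((q - 1) * (-1) ^ k) := by
      rw [pow_add, h6]; ring
    simp only [if_true]
    rw [h2, h7, mul_smul, ← mul_smul_comm, h5, Xl, if_pos rfl, ← smul_mul_assoc, hd_prod]

theorem wordl_cons (as : List ℕ) (k : ℕ) (b : Bool) (bs : List Bool) :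
    wordl as k (b :: bs) = blkl as k b ++ wordl as k bs := by
  simp [wordl]

theorem wordsl_prod (q : A) (as : List ℕ) (k : ℕ) (bs : List Bool) :
    ((q - 1) ^ bs.length * (-1) ^ (wordl as (k + 1) bs).length) •
      (((wordl as (k + 1) bs).map (fun b => Bm b q)).prod) =
      (bs.map (fun b => Xl as b q * (V2 q + (2 - q) ^ k • V1 q))).prod := by
  induction bs with
  | nil => simp [wordl]
  | cons b bs ih =>
    rw [wordl_cons, List.map_append, List.prod_append, List.length_cons, List.map_cons,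
      List.prod_cons, ← ih, ← blkl_prod, smul_mul_smul_comm, List.length_append]
    congr 1
    rw [pow_succ, pow_add]
    ring

theorem wordl_identity (as : List ℕ) (k : ℕ) (N : ℕ) (bs : List Bool) (hbs : bs.length = N + 1)
    (q : A) :
    (q - 1) ^ N * (-1) ^ (wordl as (k + 1) bs).length * Rw (wordl as (k + 1) bs) q =
      q * ((q - 1) ^ N * ((2 - q) ^ (wordl as (k + 1) bs).length + (q ^ 2 - 3 * q + 1)) +
        Phl as bs q ((2 - q) ^ k)) := by
  have h1 := congrArg Matrix.trace (wordsl_prod q as k bs)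
  rw [Matrix.trace_smul, smul_eq_mul, hbs] at h1
  have h3 := pow_sq_one (A := A) (wordl as (k + 1) bs).length
  have h4 : ((-1 : A) ^ (wordl as (k + 1) bs).length) * (q - 2) ^ (wordl as (k + 1) bs).length =
      (2 - q) ^ (wordl as (k + 1) bs).length := by
    rw [← mul_pow]; congr 1; ring
  rw [pow_succ] at h1
  rw [Phl, ← h1, ← h4, Rw]
  linear_combination (q * (q - 1) ^ N * ((q - 2) + (q - 1) * (q - 3))) * h3

def wl2 : Fin 3 → A := ![1, 0, -1]

def wv2 (q : A) : Fin 3 → A := ![-(q - 2), 0, 1]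

/-- the amplitude of the long block -/
def bl (as : List ℕ) (q : A) : A := wl2 ⬝ᵥ (Hm q as).mulVec (wv2 q)

private lemma words_V2 (q : A) : V2 q = Matrix.vecMulVec (wv2 q) wl2 := by
  ext i j
  fin_cases i <;> fin_cases j <;> simp [V2, Matrix.vecMulVec, wv2, wl2]

private lemma words_rank (q : A) (as : List ℕ) (bs : List Bool) : ∀ b : Bool,
    (((b :: bs).map (fun b => Xl as b q * V2 q)).prod) =
      (bs.map (fun b => wl2 ⬝ᵥ (Xl as b q).mulVec (wv2 q))).prod •
        Matrix.vecMulVec ((Xl as b q).mulVec (wv2 q)) wl2 := by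
  induction bs with
  | nil =>
    intro b
    rw [List.map_cons, List.map_nil, List.prod_cons, List.prod_nil, mul_one, List.map_nil,
      List.prod_nil, one_smul, words_V2, Matrix.mul_vecMulVec]
  | cons i bs ih =>
    intro b
    rw [List.map_cons, List.prod_cons, ih i, words_V2, Matrix.mul_vecMulVec, mul_smul_comm,
      Matrix.vecMulVec_mul_vecMulVec, List.map_cons, List.prod_cons]
    rw [Matrix.vecMulVec_smul, smul_smul, mul_comm]

theorem amp (q : A) (as : List ℕ) (b : Bool) :
    wl2 ⬝ᵥ (Xl as b q).mulVec (wv2 q) = if b then bl as q else 1 := by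
  cases b
  · have hC : ∀ v : Fin 3 → A, wl2 ⬝ᵥ (Bm false q).mulVec v = v 2 := by
      intro v
      simp [Bm, wl2, Matrix.mulVec, dotProduct, Fin.sum_univ_three]
      ring
    rw [Xl, if_neg (by simp), hC]
    simp [wv2]
  · rw [Xl, if_pos rfl, if_pos rfl, bl]

theorem Phl_zero (as : List ℕ) (bs : List Bool) (hbs : bs ≠ []) (q : A) :
    Phl as bs q 0 = (bs.map (fun b => if b then bl as q else 1)).prod := by
  obtain ⟨b, bs', rfl⟩ : ∃ b bs', bs = b :: bs' := by
    cases bs with
    | nil => exact absurd rfl hbs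
    | cons b bs' => exact ⟨b, bs', rfl⟩
  rw [Phl]
  simp only [zero_smul, add_zero]
  rw [words_rank, Matrix.trace_smul, smul_eq_mul, Matrix.trace_vecMulVec, dotProduct_comm, amp,
    List.map_cons, List.prod_cons, mul_comm]
  simp only [amp]

/-- the pair `(l1 w, l2 w)` -/
def ps (q : A) : List ℕ → A × A
  | [] => ((q - 2) ^ 2, 1)
  | a :: as => (((q - 2) ^ 3 + (q - 2) ^ 2 + 2 * (q - 2) + 1) * (2 - q) ^ (a - 1) * (ps q as).1 +
      (q - 2) ^ 2 * (ps q as).2, (q - 2) * (2 - q) ^ (a - 1) * (ps q as).1 + (ps q as).2)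

private def wl1 (q : A) : Fin 3 → A := ![1, 0, q - 2]

private lemma dot_step (q : A) (k : ℕ) (w : Fin 3 → A) :
    (q - 1) * (wl2 ⬝ᵥ ((-1 : A) ^ (k + 1 + 1) • (Bm false q * Bm true q ^ (k + 1))).mulVec w) =
        (q - 2) * (2 - q) ^ k * (wl1 q ⬝ᵥ w) + wl2 ⬝ᵥ w ∧
    (q - 1) * (wl1 q ⬝ᵥ ((-1 : A) ^ (k + 1 + 1) • (Bm false q * Bm true q ^ (k + 1))).mulVec w) =
        ((q - 2) ^ 3 + (q - 2) ^ 2 + 2 * (q - 2) + 1) * (2 - q) ^ k * (wl1 q ⬝ᵥ w) +
          (q - 2) ^ 2 * (wl2 ⬝ᵥ w) := by
  have h3 := pow_sq_one (A := A) k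
  have h4 : ((-1 : A) ^ k) * (q - 2) ^ k = (2 - q) ^ k := by
    rw [← mul_pow]; congr 1; ring
  have h6 : (-1 : A) ^ (k + 1 + 1) = (-1) ^ k := by
    rw [pow_succ, pow_succ]; ring
  have h5 : (q - 1) • ((-1 : A) ^ (k + 1 + 1) • (Bm false q * Bm true q ^ (k + 1))) =
      Bm false q * (V2 q + (2 - q) ^ k • V1 q) := by
    rw [h6, smul_smul, mul_comm (q - 1), mul_smul, ← mul_smul_comm, Bm_true_pow, ← mul_smul_comm,
      smul_sub, smul_smul, smul_smul, h4, pow_succ, ← mul_assoc, h3, one_mul, neg_one_smul,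
      sub_neg_eq_add, add_comm]
  constructor
  · rw [← smul_eq_mul (q - 1), ← dotProduct_smul, ← Matrix.smul_mulVec, h5]
    simp [Bm, V1, V2, wl1, wl2, Matrix.mulVec, dotProduct, Fin.sum_univ_three, Matrix.mul_apply]
    ring
  · rw [← smul_eq_mul (q - 1), ← dotProduct_smul, ← Matrix.smul_mulVec, h5]
    simp [Bm, V1, V2, wl1, wl2, Matrix.mulVec, dotProduct, Fin.sum_univ_three, Matrix.mul_apply]
    ring

theorem ps_eq (q : A) (as : List ℕ) (has : ∀ a ∈ as, 1 ≤ a) :
    (q - 1) ^ as.length * (wl1 q ⬝ᵥ (Hm q as).mulVec (wv2 q)) = (ps q as).1 ∧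
      (q - 1) ^ as.length * bl as q = (ps q as).2 := by
  induction as with
  | nil =>
    constructor
    · simp [ps, Hm, Bm, wl1, wv2, Matrix.mulVec, dotProduct, Fin.sum_univ_three]
      ring
    · simp [ps, bl, Hm, Bm, wl2, wv2, Matrix.mulVec, dotProduct, Fin.sum_univ_three]
      ring
  | cons a as ih =>
    obtain ⟨i1, i2⟩ := ih (fun b hb => has b (List.mem_cons_of_mem _ hb))
    obtain ⟨k, rfl⟩ : ∃ k, a = k + 1 := ⟨a - 1, by
      have := has a List.mem_cons_self
      omega⟩
    obtain ⟨d1, d2⟩ := dot_step q k ((Hm q as).mulVec (wv2 q))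
    have e : (Hm q ((k + 1) :: as)).mulVec (wv2 q) =
        ((-1 : A) ^ (k + 1 + 1) • (Bm false q * Bm true q ^ (k + 1))).mulVec
          ((Hm q as).mulVec (wv2 q)) := by
      rw [Matrix.mulVec_mulVec, Hm, smul_mul_assoc]
    constructor
    · rw [e, List.length_cons, pow_succ, mul_assoc, d2, ps]
      simp only [Nat.add_sub_cancel]
      rw [← i1, ← i2, bl]
      ring
    · rw [bl, e, List.length_cons, pow_succ, mul_assoc, d1, ps]
      simp only [Nat.add_sub_cancel]
      rw [← i1, ← i2, bl]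
      ring

end H80R
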