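import Pool.Agent.CHR.Tie
import Pool.Agent.H80R.Words

/-!
# Zeros of the limit functions inside the lens
-/

namespace H80R

open Metric Set Filter Topology Polynomial CHR

section maps

variable {A B : Type} [CommRing A] [CommRing B] (f : A →+* B)

lemma Bmm (b : Bool) (q : A) : f.mapMatrix (Bm b q) = Bm b (f q) := by
  rw [RingHom.mapMatrix_apply, Bm_map]

lemma smul_mapM (x : A) (M : Matrix (Fin 3) (Fin 3) A) :
    f.mapMatrix (x • M) = f x • f.mapMatrix M := by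
  ext i j
  simp

lemma Hm_map (q : A) (as : List ℕ) : f.mapMatrix (Hm q as) = Hm (f q) as := by
  induction as with
  | nil => simp only [Hm, Bmm]
  | cons a as ih =>
    simp only [Hm, smul_mapM, map_mul, map_pow, Bmm, map_neg, map_one, ih]

lemma bl_map (q : A) (as : List ℕ) : f (bl as q) = bl as (f q) := by
  have h : ∀ (M : Matrix (Fin 3) (Fin 3) A),
      f (wl2 ⬝ᵥ M.mulVec (wv2 q)) = wl2 ⬝ᵥ (f.mapMatrix M).mulVec (wv2 (f q)) := by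
    intro M
    have h2 : f 2 = 2 := map_ofNat f 2
    simp [wl2, wv2, Matrix.mulVec, dotProduct, Fin.sum_univ_three, h2]
  rw [bl, h, Hm_map, bl]

end maps

lemma eval_bl (q : ℂ) (as : List ℕ) : (bl as (X : ℂ[X])).eval q = bl as q := by
  rw [← coe_evalRingHom, bl_map, coe_evalRingHom, eval_X]

private lemma cone_D (k : ℕ) (w : Fin 3 → ℝ) (h0 : 0 ≤ -(w 0)) (h1 : 0 ≤ -(w 1))
    (h2 : -(w 0) < -(w 2)) (h3 : -(w 1) < -(w 2)) :
    0 ≤ -(((-1 : ℝ) ^ k • (Bm true (1 : ℝ) ^ k)).mulVec w 0) ∧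
      0 ≤ -(((-1 : ℝ) ^ k • (Bm true (1 : ℝ) ^ k)).mulVec w 1) ∧
      -(((-1 : ℝ) ^ k • (Bm true (1 : ℝ) ^ k)).mulVec w 0) <
        -(((-1 : ℝ) ^ k • (Bm true (1 : ℝ) ^ k)).mulVec w 2) ∧
      -(((-1 : ℝ) ^ k • (Bm true (1 : ℝ) ^ k)).mulVec w 1) <
        -(((-1 : ℝ) ^ k • (Bm true (1 : ℝ) ^ k)).mulVec w 2) := by
  induction k with
  | zero =>
    simp only [pow_zero, one_smul, Matrix.one_mulVec]
    exact ⟨h0, h1, h2, h3⟩
  | succ k ih =>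
    obtain ⟨i0, i1, i2, i3⟩ := ih
    have e : ((-1 : ℝ) ^ (k + 1) • (Bm true (1 : ℝ) ^ (k + 1))).mulVec w =
        -(Bm true (1 : ℝ)).mulVec (((-1 : ℝ) ^ k • (Bm true (1 : ℝ) ^ k)).mulVec w) := by
      rw [Matrix.mulVec_mulVec, pow_succ', pow_succ', mul_smul, neg_one_smul, mul_smul_comm,
        Matrix.neg_mulVec]
    rw [e]
    set u := ((-1 : ℝ) ^ k • (Bm true (1 : ℝ) ^ k)).mulVec w
    have e0 : (Bm true (1 : ℝ)).mulVec u 0 = -(u 2) := by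
      simp [Bm, Matrix.mulVec, dotProduct, Fin.sum_univ_three]
      ring
    have e1 : (Bm true (1 : ℝ)).mulVec u 1 = u 0 - u 2 := by
      simp [Bm, Matrix.mulVec, dotProduct, Fin.sum_univ_three]
      ring
    have e2 : (Bm true (1 : ℝ)).mulVec u 2 = u 0 - 2 * u 2 := by
      simp [Bm, Matrix.mulVec, dotProduct, Fin.sum_univ_three]
      ring
    simp only [Pi.neg_apply, e0, e1, e2]
    refine ⟨by linarith, by linarith, by linarith, by linarith⟩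

private lemma cone_H (as : List ℕ) :
    0 ≤ -((Hm (1 : ℝ) as).mulVec (wv2 1) 0) ∧ 0 ≤ -((Hm (1 : ℝ) as).mulVec (wv2 1) 1) ∧
      -((Hm (1 : ℝ) as).mulVec (wv2 1) 0) < -((Hm (1 : ℝ) as).mulVec (wv2 1) 2) ∧
      -((Hm (1 : ℝ) as).mulVec (wv2 1) 1) < -((Hm (1 : ℝ) as).mulVec (wv2 1) 2) := by
  induction as with
  | nil =>
    refine ⟨?_, ?_, ?_, ?_⟩ <;>
      simp [Hm, Bm, wv2, Matrix.mulVec, dotProduct, Fin.sum_univ_three] <;> norm_num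
  | cons a as ih =>
    obtain ⟨i0, i1, i2, i3⟩ := ih
    obtain ⟨j0, j1, j2, j3⟩ := cone_D a _ i0 i1 i2 i3
    have e : (Hm (1 : ℝ) (a :: as)).mulVec (wv2 1) =
        -(Bm false (1 : ℝ)).mulVec (((-1 : ℝ) ^ a • (Bm true (1 : ℝ) ^ a)).mulVec
          ((Hm (1 : ℝ) as).mulVec (wv2 1))) := by
      rw [Matrix.mulVec_mulVec, Matrix.mulVec_mulVec, Hm, pow_succ', mul_smul, neg_one_smul,
        Matrix.neg_mulVec, mul_smul_comm, smul_mul_assoc]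
    rw [e]
    set u := ((-1 : ℝ) ^ a • (Bm true (1 : ℝ) ^ a)).mulVec ((Hm (1 : ℝ) as).mulVec (wv2 1))
    have e0 : (Bm false (1 : ℝ)).mulVec u 0 = u 1 - u 2 := by
      simp [Bm, Matrix.mulVec, dotProduct, Fin.sum_univ_three]
      ring
    have e1 : (Bm false (1 : ℝ)).mulVec u 1 = -(u 2) := by
      simp [Bm, Matrix.mulVec, dotProduct, Fin.sum_univ_three]
      ring
    have e2 : (Bm false (1 : ℝ)).mulVec u 2 = u 1 - 2 * u 2 := by
      simp [Bm, Matrix.mulVec, dotProduct, Fin.sum_univ_three]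
      ring
    simp only [Pi.neg_apply, e0, e1, e2]
    refine ⟨by linarith, by linarith, by linarith, by linarith⟩

lemma bl_one (as : List ℕ) : bl as (1 : ℂ) ≠ 0 := by
  have h := bl_map Complex.ofRealHom (1 : ℝ) as
  rw [map_one] at h
  rw [← h]
  obtain ⟨-, -, h2, -⟩ := cone_H as
  have h3 : bl as (1 : ℝ) = (Hm (1 : ℝ) as).mulVec (wv2 1) 0 -
      (Hm (1 : ℝ) as).mulVec (wv2 1) 2 := by
    rw [bl]
    simp [wl2, dotProduct, Fin.sum_univ_three]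
    ring
  have h4 : bl as (1 : ℝ) ≠ 0 := by
    rw [h3]
    intro h5
    linarith
  intro h6
  exact h4 (Complex.ofReal_eq_zero.1 h6)

private lemma hasDerivAt_F {q : ℂ} (hq : q ≠ 1) :
    HasDerivAt (fun q : ℂ => (q - 1)⁻¹) (-1 / (q - 1) ^ 2) q :=
  ((hasDerivAt_id q).sub_const 1).inv (sub_ne_zero.2 hq)

private lemma hasDerivAt_G {q : ℂ} (hq : q ≠ 1) (P : ℂ[X]) :
    HasDerivAt (fun q : ℂ => P.eval q * (q - 1)⁻¹)
      (P.derivative.eval q * (q - 1)⁻¹ + P.eval q * (-1 / (q - 1) ^ 2)) q :=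
  (P.hasDerivAt q).mul (hasDerivAt_F hq)

private lemma nondeg (q0 : ℂ) (P : ℂ[X]) (hP : P.eval 1 ≠ 0) (σ : ℝ) (hσ : 0 < σ) (δ : ℝ)
    (hδ : 0 < δ) : ∃ q ∈ ball q0 δ,
      deriv (fun q : ℂ => (q - 1)⁻¹) q * (P.eval q * (q - 1)⁻¹) +
        (σ : ℂ) * (deriv (fun q : ℂ => P.eval q * (q - 1)⁻¹) q * (q - 1)⁻¹) ≠ 0 := by
  by_contra hcon
  push Not at hcon
  have h2 : ∀ q ∈ ball q0 δ \ {1},
      (C (σ : ℂ) * P.derivative * (X - 1) - C (1 + (σ : ℂ)) * P).eval q = 0 := by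
    rintro q ⟨hq, hq1⟩
    have hq1' : q ≠ 1 := hq1
    have hq2 : q - 1 ≠ 0 := sub_ne_zero.2 hq1'
    have h3 := hcon q hq
    rw [(hasDerivAt_F hq1').deriv, (hasDerivAt_G hq1' P).deriv] at h3
    simp only [eval_sub, eval_mul, eval_X, eval_one, eval_C]
    have h4 : -1 / (q - 1) ^ 2 * (P.eval q * (q - 1)⁻¹) +
        (σ : ℂ) * ((P.derivative.eval q * (q - 1)⁻¹ + P.eval q * (-1 / (q - 1) ^ 2)) *
          (q - 1)⁻¹) =
        (σ * P.derivative.eval q * (q - 1) - (1 + (σ : ℂ)) * P.eval q) * ((q - 1)⁻¹) ^ 3 := by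
      field_simp
      ring
    rw [h4] at h3
    rcases mul_eq_zero.1 h3 with h5 | h5
    · exact h5
    · exact absurd (pow_eq_zero_iff (by norm_num) |>.1 h5) (inv_ne_zero hq2)
  have h3 : (ball q0 δ \ {1}).Infinite :=
    (infinite_of_mem_nhds q0 (ball_mem_nhds q0 hδ)).sdiff (finite_singleton 1)
  have h4 : C (σ : ℂ) * P.derivative * (X - 1) - C (1 + (σ : ℂ)) * P = 0 :=
    eq_zero_of_infinite_isRoot _ (h3.mono fun q hq => h2 q hq)
  have h5 := congrArg (eval 1) h4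
  simp only [eval_sub, eval_mul, eval_X, eval_one, eval_C, sub_self, mul_zero, zero_sub,
    eval_zero, neg_eq_zero] at h5
  rcases mul_eq_zero.1 h5 with h6 | h6
  · have h7 := congrArg Complex.re h6
    simp at h7
    linarith
  · exact hP h6

theorem lens_zero {q0 : ℂ} (h1 : ‖q0 - 1‖ < 1) {a : List ℕ}
    (hB : ‖bl a q0‖ < ‖q0 - 1‖) (hB0 : bl a q0 ≠ 0)
    (h3 : q0 ^ 2 - 3 * q0 + 1 ≠ 0) {ε : ℝ} (hε : 0 < ε) :
    ∃ s t, 2 ≤ s ∧ 2 ≤ t ∧ ∃ q1 : ℂ, ‖q1 - q0‖ < ε ∧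
      (q1 - 1) ^ (s + t - 1) * (q1 ^ 2 - 3 * q1 + 1) + bl a q1 ^ t = 0 := by
  have hq01 : q0 - 1 ≠ 0 := by
    intro h
    rw [h, norm_zero] at hB
    have := norm_nonneg (bl a q0)
    linarith
  have hq0ne : q0 ≠ 1 := sub_ne_zero.1 hq01
  have hpos : 0 < ‖q0 - 1‖ := norm_pos_iff.2 hq01
  set c : ℂ := -(q0 ^ 2 - 3 * q0 + 1) * (q0 - 1)⁻¹ with hc
  have hc0 : c ≠ 0 := mul_ne_zero (neg_ne_zero.2 h3) (inv_ne_zero hq01)
  have hcT : ContinuousAt (fun q : ℂ => -(q ^ 2 - 3 * q + 1) * (q - 1)⁻¹) q0 := by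
    have : ContinuousAt (fun q : ℂ => (q - 1)⁻¹) q0 := (hasDerivAt_F hq0ne).continuousAt
    fun_prop
  have hcG : ContinuousAt (fun q : ℂ => (bl a (X : ℂ[X])).eval q * (q - 1)⁻¹) q0 :=
    (hasDerivAt_G hq0ne _).continuousAt
  have hG1 : ‖(bl a (X : ℂ[X])).eval q0 * (q0 - 1)⁻¹‖ < 1 := by
    rw [eval_bl, norm_mul, norm_inv, ← div_eq_mul_inv, div_lt_one hpos]
    exact hB
  have hG0 : (bl a (X : ℂ[X])).eval q0 * (q0 - 1)⁻¹ ≠ 0 := by
    refine mul_ne_zero ?_ (inv_ne_zero hq01)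
    rw [eval_bl]
    exact hB0
  have hF1 : 1 < ‖(q0 - 1)⁻¹‖ := by
    rw [norm_inv]
    exact (one_lt_inv₀ hpos).2 h1
  have ev1 : ∀ᶠ q in 𝓝 q0, q ≠ 1 := eventually_ne_nhds hq0ne
  have ev2 : ∀ᶠ q in 𝓝 q0, (bl a (X : ℂ[X])).eval q * (q - 1)⁻¹ ≠ 0 :=
    hcG.eventually_ne hG0
  have ev3 : ∀ᶠ q in 𝓝 q0, ‖-(q ^ 2 - 3 * q + 1) * (q - 1)⁻¹ - c‖ < ‖c‖ / 2 := by
    have h4 := (hcT.sub_const c).norm
    have h5 : ‖-(q0 ^ 2 - 3 * q0 + 1) * (q0 - 1)⁻¹ - c‖ < ‖c‖ / 2 := by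
      rw [← hc, sub_self, norm_zero]
      have := norm_pos_iff.2 hc0
      linarith
    exact h4.eventually_lt_const h5
  obtain ⟨r, hr, hb⟩ := Metric.eventually_nhds_iff_ball.1 (ev1.and (ev2.and ev3))
  obtain ⟨t, s, ht, hs, q1, hq1, he⟩ := tie (q0 := q0) (c := c) hr
    (F := fun q => (bl a (X : ℂ[X])).eval q * (q - 1)⁻¹) (G := fun q => (q - 1)⁻¹)
    (fun q hq => (hasDerivAt_G (hb q hq).1 _).differentiableAt.differentiableWithinAt)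
    (fun q hq => (hasDerivAt_F (hb q hq).1).differentiableAt.differentiableWithinAt)
    (fun q hq => (hb q hq).2.1)
    (fun q hq => inv_ne_zero (sub_ne_zero.2 (hb q hq).1)) hG1 hF1
    (nondeg q0 _ (by rw [eval_bl]; exact bl_one a))
    hc0 0 (fun _ _ q => -(q ^ 2 - 3 * q + 1) * (q - 1)⁻¹)
    (fun s t _ _ q hq => by
      have : DifferentiableAt ℂ (fun q : ℂ => (q - 1)⁻¹) q :=
        (hasDerivAt_F (hb q hq).1).differentiableAt
      exact ((by fun_prop : DifferentiableAt ℂ (fun q : ℂ => -(q ^ 2 - 3 * q + 1)) q).mul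
        this).differentiableWithinAt)
    (fun s t _ _ q hq => (hb q hq).2.2.le) (ε := min ε r) (lt_min hε hr) 2
  have hq1r : q1 ∈ ball q0 r := by
    rw [mem_ball_iff_norm]
    exact hq1.trans_le (min_le_right _ _)
  have hne : q1 - 1 ≠ 0 := sub_ne_zero.2 (hb q1 hq1r).1
  refine ⟨s, t, hs, ht, q1, hq1.trans_le (min_le_left _ _), ?_⟩
  simp only [eval_bl, mul_pow, inv_pow] at he
  obtain ⟨n, hn⟩ : ∃ n, s + t = n + 1 := ⟨s + t - 1, by omega⟩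
  have hn' : s + t - 1 = n := by omega
  rw [hn']
  have e1 : bl a q1 ^ t = bl a q1 ^ t * ((q1 - 1)⁻¹ ^ t * (q1 - 1)⁻¹ ^ s) *
      (q1 - 1) ^ (s + t) := by
    rw [← pow_add, add_comm t s, mul_assoc, ← mul_pow, inv_mul_cancel₀ hne, one_pow, mul_one]
  have e2 : bl a q1 ^ t * ((q1 - 1)⁻¹ ^ t * (q1 - 1)⁻¹ ^ s) =
      -(q1 ^ 2 - 3 * q1 + 1) * (q1 - 1)⁻¹ := by
    rw [← he, inv_pow, inv_pow]
    ring
  rw [e1, e2, hn, pow_succ]
  field_simp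
  ring

end H80R
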