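import Pool.Agent.H80R.Local
import Pool.Agent.H80R.Zero

/-!
# Points inside the lens, all words
-/

namespace H80R

open CHR H37.Chrom Polynomial

theorem words_subset {q : ℂ} {as : List ℕ} (has : ∀ a ∈ as, 1 ≤ a) (h1 : ‖q - 1‖ < 1)
    (h2 : ‖q - 2‖ < 1) (hB : ‖(ps q as).2‖ < ‖q - 1‖ ^ (as.length + 1)) :
    q ∈ closure rootSet := by
  rw [Metric.mem_closure_iff]
  intro ε hε
  have hpos : 0 < ‖q - 1‖ := by
    rcases (norm_nonneg (q - 1)).lt_or_eq with h | h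
    · exact h
    · rw [← h, zero_pow (by omega)] at hB
      have := norm_nonneg (ps q as).2
      linarith
  have hb : ‖bl as q‖ < ‖q - 1‖ := by
    have h3 := congrArg norm (ps_eq q as has).2
    rw [norm_mul, norm_pow] at h3
    rw [← h3, pow_succ] at hB
    exact lt_of_mul_lt_mul_left hB (pow_nonneg hpos.le _)
  have hc : Continuous fun z : ℂ => bl as z := by
    have : (fun z : ℂ => bl as z) = fun z => (bl as (X : ℂ[X])).eval z := by
      funext z
      rw [eval_bl]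
    rw [this]
    exact Polynomial.continuous _
  have hopen : IsOpen {z : ℂ | ‖z - 1‖ < 1 ∧ ‖z - 2‖ < 1 ∧ ‖bl as z‖ < ‖z - 1‖ ∧
      ‖z - q‖ < ε / 3} := by
    have o1 : IsOpen {z : ℂ | ‖z - 1‖ < 1} := isOpen_lt (by fun_prop) (by fun_prop)
    have o2 : IsOpen {z : ℂ | ‖z - 2‖ < 1} := isOpen_lt (by fun_prop) (by fun_prop)
    have o3 : IsOpen {z : ℂ | ‖bl as z‖ < ‖z - 1‖} := isOpen_lt hc.norm (by fun_prop)
    have o4 : IsOpen {z : ℂ | ‖z - q‖ < ε / 3} := isOpen_lt (by fun_prop) (by fun_prop)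
    exact o1.inter (o2.inter (o3.inter o4))
  have hmem : q ∈ {z : ℂ | ‖z - 1‖ < 1 ∧ ‖z - 2‖ < 1 ∧ ‖bl as z‖ < ‖z - 1‖ ∧
      ‖z - q‖ < ε / 3} := ⟨h1, h2, hb, by rw [sub_self, norm_zero]; linarith⟩
  have hinf := infinite_of_mem_nhds q (hopen.mem_nhds hmem)
  set P : ℂ[X] := bl as X * (X ^ 2 - 3 * X + 1) with hP
  have hPe : ∀ z : ℂ, P.eval z = bl as z * (z ^ 2 - 3 * z + 1) := by
    intro z
    rw [hP]
    simp [eval_bl]
  have hP0 : P ≠ 0 := by
    intro h0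
    have h3 := hPe 1
    rw [h0, eval_zero] at h3
    rcases mul_eq_zero.1 h3.symm with h4 | h4
    · exact bl_one as h4
    · norm_num at h4
  have hfin : {z : ℂ | IsRoot P z}.Finite := by
    by_contra hcon
    exact hP0 (eq_zero_of_infinite_isRoot P hcon)
  obtain ⟨q', ⟨g1, g2, g3, g4⟩, hq'⟩ := hinf.exists_notMem_finite hfin
  have g6 : bl as q' * (q' ^ 2 - 3 * q' + 1) ≠ 0 := by
    intro h0
    exact hq' (by rw [Set.mem_setOf_eq, IsRoot.def, hPe]; exact h0)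
  obtain ⟨s, t, hs, ht, q1, hq1, hz⟩ := lens_zero g1 g3 (left_ne_zero_of_mul g6)
    (right_ne_zero_of_mul g6)
    (ε := min (ε / 3) (1 - ‖q' - 2‖)) (lt_min (by linarith) (by linarith))
  have hq1a : ‖q1 - q'‖ < ε / 3 := hq1.trans_le (min_le_left _ _)
  have hq1b : ‖q1 - q'‖ < 1 - ‖q' - 2‖ := hq1.trans_le (min_le_right _ _)
  have hq12 : ‖q1 - 2‖ < 1 := by
    have h3 : q1 - 2 = (q1 - q') + (q' - 2) := by ring
    rw [h3]
    refine (norm_add_le _ _).trans_lt ?_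
    linarith
  obtain ⟨b, hb, hb1⟩ := lens_local hq12 has hs ht hz (ε := ε / 3) (by linarith)
  refine ⟨b, hb, ?_⟩
  rw [dist_eq_norm]
  have h3 : q - b = -(q' - q) + -(q1 - q') + -(b - q1) := by ring
  rw [h3]
  refine (norm_add₃_le).trans_lt ?_
  rw [norm_neg, norm_neg, norm_neg]
  linarith

end H80R
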