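import Pool.Agent.CHR.RimPlanar
import Pool.Agent.CHR.RimConn
import Pool.Agent.H80R.Words

/-!
# The two-hub rims of the words `wordl as k bs` are 3-connected and planar
-/

namespace H80R

open CHR H37.Chrom

/-- every `false` is followed by a `true` -/
private def GoodW (w : List Bool) : Prop := ∀ i : ℕ, w[i]? = some false → w[i + 1]? = some true

private lemma goodW_append {u v : List Bool} (hu : GoodW u) (hv : GoodW v) : GoodW (u ++ v) := by
  intro i h
  by_cases hi : i < u.length
  · rw [List.getElem?_append_left hi] at h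
    have h1 := hu i h
    have h2 : i + 1 < u.length := by
      by_contra hc
      rw [List.getElem?_eq_none (by omega)] at h1
      cases h1
    rw [List.getElem?_append_left h2]
    exact h1
  · rw [List.getElem?_append_right (by omega)] at h
    rw [List.getElem?_append_right (by omega)]
    have h1 := hv _ h
    rwa [show i + 1 - u.length = i - u.length + 1 by omega]

private lemma goodW_nil : GoodW [] := by
  intro i h
  simp at h

private lemma goodW_tail {k : ℕ} (hk : 1 ≤ k) : GoodW (false :: List.replicate k true) := by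
  intro i h
  rcases i with _ | i
  · rw [List.getElem?_cons_succ, List.getElem?_replicate, if_pos (by omega)]
  · rw [List.getElem?_cons_succ, List.getElem?_replicate] at h
    split_ifs at h
    simp at h

private lemma goodW_hd {as : List ℕ} (ha : ∀ a ∈ as, 1 ≤ a) : GoodW (hd as) := by
  induction as with
  | nil => exact goodW_nil
  | cons a as ih =>
    have h1 : hd (a :: as) = (false :: List.replicate a true) ++ hd as := by simp [hd]
    rw [h1]
    exact goodW_append (goodW_tail (ha a List.mem_cons_self))
      (ih fun b hb => ha b (List.mem_cons_of_mem _ hb))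

private lemma goodW_blk {as : List ℕ} {k : ℕ} (ha : ∀ a ∈ as, 1 ≤ a) (hk : 1 ≤ k) (b : Bool) :
    GoodW (blkl as k b) := by
  rw [blkl]
  refine goodW_append ?_ (goodW_tail hk)
  cases b
  · exact goodW_nil
  · exact goodW_hd ha

private lemma goodW_word {as : List ℕ} {k : ℕ} (ha : ∀ a ∈ as, 1 ≤ a) (hk : 1 ≤ k)
    (bs : List Bool) : GoodW (wordl as k bs) := by
  induction bs with
  | nil => exact goodW_nil
  | cons b bs ih =>
    rw [wordl_cons]
    exact goodW_append (goodW_blk ha hk b) ih

private lemma blk_start (as : List ℕ) (k : ℕ) (b : Bool) :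
    ∃ u, blkl as k b = false :: u ∧ k ≤ u.length := by
  cases b
  · exact ⟨List.replicate k true, rfl, by simp⟩
  · cases as with
    | nil => exact ⟨List.replicate k true, rfl, by simp⟩
    | cons a as =>
      refine ⟨List.replicate a true ++ hd as ++ (false :: List.replicate k true), ?_, ?_⟩
      · simp [blkl, hd]
      · simp
        omega

private lemma blk_end {k : ℕ} (hk : 3 ≤ k) (as : List ℕ) (b : Bool) :
    ∃ v, blkl as k b = v ++ List.replicate 3 true := by
  refine ⟨(if b then hd as else []) ++
    (false :: List.replicate (k - 3) true), ?_⟩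
  rw [blkl, List.append_assoc, List.cons_append, List.replicate_append_replicate,
    show k - 3 + 3 = k by omega]

private lemma word_end {k : ℕ} (hk : 3 ≤ k) (as : List ℕ) (bs : List Bool) (h : bs ≠ []) :
    ∃ v, wordl as k bs = v ++ List.replicate 3 true := by
  induction bs with
  | nil => exact absurd rfl h
  | cons b bs ih =>
    rw [wordl_cons]
    by_cases hj : bs = []
    · obtain ⟨v, hv⟩ := blk_end hk as b
      refine ⟨v, ?_⟩
      rw [hj, hv]
      simp [wordl]
    · obtain ⟨v, hv⟩ := ih hj
      refine ⟨blkl as k b ++ v, ?_⟩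
      rw [hv, List.append_assoc]

private lemma word_three {k : ℕ} (hk : 3 ≤ k) (as : List ℕ) {bs : List Bool} (hbs : 3 ≤ bs.length) :
    ∃ x y : ℕ, 0 < x ∧ x < y ∧ (wordl as k bs)[0]? = some false ∧
      (wordl as k bs)[x]? = some false ∧
      (wordl as k bs)[y]? = some false ∧ 12 ≤ (wordl as k bs).length := by
  match bs, hbs with
  | j1 :: j2 :: j3 :: bs, _ =>
    obtain ⟨u1, h1, l1⟩ := blk_start as k j1
    obtain ⟨u2, h2, l2⟩ := blk_start as k j2
    obtain ⟨u3, h3, l3⟩ := blk_start as k j3
    rw [wordl_cons, wordl_cons, wordl_cons, h1, h2, h3]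
    refine ⟨u1.length + 1, u1.length + 1 + (u2.length + 1), by omega, by omega, rfl, ?_, ?_, ?_⟩
    · rw [List.getElem?_append_right (by simp)]
      simp
    · rw [List.getElem?_append_right (by simp), List.getElem?_append_right (by simp)]
      simp
    · simp only [List.length_append, List.length_cons]
      omega

private lemma word_last {k : ℕ} (hk : 3 ≤ k) (as : List ℕ) {bs : List Bool} (hbs : 3 ≤ bs.length)
    (i : Fin (wordl as k bs).length) (h : (wordl as k bs).length ≤ i.val + 3) :
    (wordl as k bs).get i = true := by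
  obtain ⟨v, hv⟩ := word_end hk as bs (by rintro rfl; simp at hbs)
  have hi := i.2
  have h1 : (wordl as k bs)[i.val]? = some ((wordl as k bs).get i) := by
    rw [List.get_eq_getElem, List.getElem?_eq_getElem]
  have hl : (wordl as k bs).length = v.length + 3 := by rw [hv]; simp
  have h3 : ∀ m : ℕ, v.length ≤ m → m < v.length + 3 → (wordl as k bs)[m]? = some true := by
    intro m hm hm2
    rw [hv, List.getElem?_append_right (by omega), List.getElem?_replicate, if_pos (by omega)]
  have h2 := h3 i.val (by omega) (by omega)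
  rw [h2] at h1
  exact (Option.some.inj h1).symm

private lemma word_get {w : List Bool} {i : ℕ} {b : Bool} (h : w[i]? = some b) :
    ∃ hi : i < w.length, w.get ⟨i, hi⟩ = b := by
  obtain ⟨hi, h2⟩ := List.getElem?_eq_some_iff.1 h
  exact ⟨hi, h2⟩

theorem planar_wordl {as : List ℕ} {k : ℕ} (hk : 3 ≤ k) {bs : List Bool} (hbs : 3 ≤ bs.length) :
    Planar (RG (wordl as k bs).get) := by
  obtain ⟨x, y, _, _, h0, _, _, hl⟩ := word_three hk as hbs
  refine planar_rim (by omega) _ ?_ (fun i hi => word_last hk as hbs i hi)
  intro i hi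
  obtain ⟨_, h2⟩ := word_get h0
  have h3 : i = ⟨0, by omega⟩ := Fin.ext hi
  rw [h3]
  exact h2

theorem threeConnected_wordl {as : List ℕ} {k : ℕ} (ha : ∀ a ∈ as, 1 ≤ a) (hk : 3 ≤ k) {bs : List Bool}
    (hbs : 3 ≤ bs.length) : ThreeConnected (RG (wordl as k bs).get) := by
  obtain ⟨x, y, hx, hxy, h0, h1, h2, hl⟩ := word_three hk as hbs
  obtain ⟨l0, e0⟩ := word_get h0
  obtain ⟨l1, e1⟩ := word_get h1
  obtain ⟨l2, e2⟩ := word_get h2
  refine threeConnected_rim (by omega) _ ?_ ⟨0, l0⟩ ⟨x, l1⟩ ⟨y, l2⟩ ?_ ?_ ?_ e0 e1 e2
  · intro i j hij hi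
    rcases hij with hij | ⟨hij, _⟩
    · have h3 : (wordl as k bs)[i.val]? = some false := by
        rw [← hi, List.get_eq_getElem, List.getElem?_eq_getElem]
      obtain ⟨l4, e4⟩ := word_get (goodW_word ha (by omega) bs _ h3)
      have h5 : j = ⟨i.val + 1, l4⟩ := Fin.ext hij
      rw [h5]
      exact e4
    · have h3 := word_last hk as hbs i (by omega)
      rw [h3] at hi
      cases hi
  · intro h
    have := congrArg Fin.val h
    simp only at this
    omega
  · intro h
    have := congrArg Fin.val h
    simp only at this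
    omega
  · intro h
    have := congrArg Fin.val h
    simp only at this
    omega

end H80R
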